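import Pool.Agent.W81.RD.AddG

/-!
The asymptotic formula for the number of representations as a prime and a positive cube, for almost
all integers of every interval `(N, N + H]` with `N^(2/3) (log N)^B ≤ H ≤ N`.
-/

set_option autoImplicit false

namespace Pool.Agent.Results.MP_15f56c_nt.ShortIntervalAsymptotic

open Finset Filter

/-- the number of `m ≥ 1` with `n - m³` prime -/
noncomputable def reps (n : ℕ) : ℕ :=
  ((Icc 1 n).filter (fun m : ℕ => m ^ 3 ≤ n ∧ (n - m ^ 3).Prime)).card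

/-- the sum of `1 / log (n - m³)` over `m ≥ 1` with `m³ + 2 ≤ n` -/
noncomputable def mainSum (n : ℕ) : ℝ :=
  ∑ m ∈ (Icc 1 n).filter (fun m : ℕ => m ^ 3 + 2 ≤ n), 1 / Real.log ((n - m ^ 3 : ℕ) : ℝ)

/-- the number of residue classes `r` modulo `p` with `r³ ≡ n` -/
noncomputable def roots (n p : ℕ) : ℕ :=
  ((range p).filter (fun r : ℕ => (p : ℤ) ∣ (n : ℤ) - (r : ℤ) ^ 3)).card

/-- the Euler product `∏_{p ≤ z} (1 - roots(p)/p) / (1 - 1/p)` -/
noncomputable def eulerProd (z n : ℕ) : ℝ :=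
  ∏ p ∈ (Icc 1 z).filter Nat.Prime, (1 - (roots n p : ℝ) / p) / (1 - 1 / (p : ℝ))

open Classical in
/-- **Prime plus a positive cube, almost all integers of short intervals.** For all `U` and
`0 < ε ≤ 1/2`, all large `E`, there are `B, N₀` such that for all `N ≥ N₀`, with
`z = ⌊(log N)^E⌋`, and `N^(2/3) (log N)^B ≤ H ≤ N`, all integers `n` of the interval `(N, N + H]`
but at most `H/(log N)^U` satisfy: `𝔖_z(n) ≥ 1/log N`, the number of `m ≥ 1` with `n - m³` prime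
equals `𝔖_z(n) (∑_m 1/log(n - m³) + O*(n^(1/3)/(log n)^U))`, it is
`(1 + O*(ε)) 𝔖_z(n) n^(1/3)/log n`, and in particular `n = m³ + p` with `m ≥ 1`, `p` prime. -/
theorem result (U : ℕ) (ε : ℝ) (hε : 0 < ε) (hε1 : ε ≤ 1 / 2) : ∃ E0 : ℕ, ∀ E : ℕ, E0 ≤ E →
    ∃ B N0 : ℕ, ∀ N H : ℕ, N0 ≤ N → (N : ℝ) ^ (2 / 3 : ℝ) * Real.log N ^ B ≤ H → H ≤ N →
    ∃ Bad : Finset ℕ, (Bad.card : ℝ) ≤ H / Real.log N ^ U ∧
      ∀ n : ℕ, N < n → n ≤ N + H → n ∉ Bad →
        1 / Real.log N ≤ eulerProd ⌊Real.log N ^ E⌋₊ n ∧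
        |(reps n : ℝ) - eulerProd ⌊Real.log N ^ E⌋₊ n * mainSum n| ≤
          eulerProd ⌊Real.log N ^ E⌋₊ n * ((n : ℝ) ^ (1 / 3 : ℝ) / Real.log n ^ U) ∧
        |(reps n : ℝ) - eulerProd ⌊Real.log N ^ E⌋₊ n * ((n : ℝ) ^ (1 / 3 : ℝ) / Real.log n)| ≤
          ε * (eulerProd ⌊Real.log N ^ E⌋₊ n * ((n : ℝ) ^ (1 / 3 : ℝ) / Real.log n)) ∧
        ∃ m p : ℕ, 1 ≤ m ∧ p.Prime ∧ n = m ^ 3 + p := by
  obtain ⟨E0, h⟩ := Pool.Agent.W81.RD.addd 3 (by norm_num) U ε hε (by linarith)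
  refine ⟨E0, fun E hE => ?_⟩
  obtain ⟨B, N0, hN⟩ := h E hE
  refine ⟨B, N0 + 3, fun N H hNN hH1 hH2 => ?_⟩
  obtain ⟨Bad, hBad, hgood⟩ := hN N H (by omega) (by
    refine le_trans (le_of_eq ?_) hH1
    norm_num) hH2
  refine ⟨Bad, hBad, fun n hn1 hn2 hnB => ?_⟩
  obtain ⟨hS, hA, hM⟩ := hgood n hn1 hn2 hnB
  have e1 : Pool.Agent.H300R2.BH.SS ⌊Real.log N ^ E⌋₊
      (Polynomial.C (-1) * Polynomial.X ^ 3 + Polynomial.C (n : ℤ)) =
      eulerProd ⌊Real.log N ^ E⌋₊ n := by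
    unfold Pool.Agent.H300R2.BH.SS eulerProd Pool.Agent.H300R2.BH.rho roots
    refine prod_congr rfl fun p _ => ?_
    have e2 : ∀ r : ℕ, (Polynomial.C (-1) * Polynomial.X ^ 3 + Polynomial.C (n : ℤ) : Polynomial ℤ).eval
        (r : ℤ) = (n : ℤ) - (r : ℤ) ^ 3 := by
      intro r
      rw [Pool.Agent.W81.RD.eval_P]
      ring
    simp_rw [e2]
  have e3 : ((3 : ℕ) : ℝ) = 3 := by norm_num
  rw [e1] at hS hA hM
  rw [e3] at hA hM
  have hn0 : (0 : ℝ) < n := by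
    have : 0 < n := by omega
    exact_mod_cast this
  have hLn : 0 < Real.log n := by
    apply Real.log_pos
    have : 1 < n := by omega
    exact_mod_cast this
  have hLN : 0 < Real.log N := by
    apply Real.log_pos
    have : 1 < N := by omega
    exact_mod_cast this
  refine ⟨hS, hA, hM, ?_⟩
  have hpos : 0 < reps n := by
    have hS0 : 0 < eulerProd ⌊Real.log N ^ E⌋₊ n := lt_of_lt_of_le (by positivity) hS
    have h1 : 0 < eulerProd ⌊Real.log N ^ E⌋₊ n * ((n : ℝ) ^ (1 / 3 : ℝ) / Real.log n) := by positivity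
    have h2 := (abs_le.1 hM).1
    have h3 : 0 < (reps n : ℝ) := by
      have e4 : ((Pool.Agent.W81.RD.repd 3 n : ℕ) : ℝ) = (reps n : ℝ) := rfl
      rw [e4] at h2
      nlinarith
    exact_mod_cast h3
  unfold reps at hpos
  rw [card_pos] at hpos
  obtain ⟨m, hm⟩ := hpos
  rw [mem_filter, mem_Icc] at hm
  exact ⟨m, n - m ^ 3, hm.1.1, hm.2.2, by omega⟩

end Pool.Agent.Results.MP_15f56c_nt.ShortIntervalAsymptotic
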